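import Pool.Agent.V8H94.TS.Main

/-!
# The main theorem without the hypotheses on divisors
-/

set_option autoImplicit false

namespace Pool.Agent.V8H94.TU

open Module TensorProduct Pool.Agent.V8H94.CT Pool.Agent.V8H94.TS

variable {p : ℕ} [Fact p.Prime] {Ω : Type} [Field Ω] [CharZero Ω]

section

open Pool.Agent.V8H94.TC Pool.Agent.V8H94.VT

theorem main_VT [IsAlgClosed Ω] {T : Cohomology p Ω} (Z : Cycles T) {W : Set T.V}
    (c : T.V → ℕ → ℕ) (hc : ∀ X ∈ W, ∀ i ≤ T.dim X, 2 * c X i ≤ i)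
    (hslope : ∀ X ∈ W, ∀ i ≤ T.dim X, ∀ y ∈ T.gr X i, ∀ a : Ω, y ≠ 0 → T.F X y = a • y →
      IsIntegral ℤ (a / (p : Ω) ^ (T.m X * c X i)))
    (hdiv : ∀ A : AbVar p Ω, TC.TateHolds Z.S A 1) (h1 : TateInDegreesOne Z.S)
    (h2 : ∀ X ∈ W, ∀ i ≤ T.dim X, TateSplit Z X i (i - 2 * c X i) (i - c X i)) :
    (∀ A : AbVar p Ω, TC.GeneralisedTate Z.S A ∧ ∀ r, TC.TateHolds Z.S A r) ∧
      ∀ X, IsProduct T W X → ∀ A : AbVar p Ω, StrongTate Z X A ∧ GeneralisedTate₂ Z X A := by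
  have hAV := tateHolds_all hdiv h1
  refine ⟨hAV, fun X hX => ?_⟩
  have hspan : Submodule.span Ω {x | IsDom Z X x} = ⊤ := by
    refine span_dom_product Z (fun X hX => ?_) (fun X Y x y hx hy => IsDom.ext hx hy) hX
    refine TW.span_dom' Z X (fun i a ha => Pool.Agent.V8H77.VT.isPure_step _ i a ha)
      fun i hi x hx a k hk hy => ?_
    obtain ⟨y, hy, hy0, hya⟩ := hy
    have ha := T.pure X i y hy a hy0 hya
    exact dom_of_split Z X (hc X hX i hi) (h2 X hX i hi) hx hk ha (hslope X hX i hi y hy a hy0 hya)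
  have hst : ∀ A, StrongTate Z X A := strongTate_of_span Z (fun A => (hAV A).2) hspan
    (fun i r s s' a A U hs hs' hss ha hU hU0 hrel =>
      Pool.Agent.V8H77.VT.weight_of_relation (T.m_pos X) i r s s' a A U hs hs' hss ha hU hU0
        hrel)
  exact fun A => ⟨hst A, generalisedTate₂_of_strong hst
    (fun m s' j a _ hs' ha => Pool.Agent.V8H77.VT.exists_factors hs' ha) A⟩

end

section

open Pool.Agent.V8H94.TC Pool.Agent.V8H94.TV

/-- **The main theorem.** -/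
theorem main [IsAlgClosed Ω] (H : Cohomology p Ω) (Z : Cycles p H.T) (W : Set H.T.V)
    (c : H.T.V → ℕ → ℕ)
    (hc : ∀ X ∈ W, ∀ i ≤ H.T.dim X, 2 * c X i ≤ i ∧ SlopesAtLeast p H.T X i (c X i)) :
    ((∀ A : AbVar p Ω, GeneralisedTate Z.S A ∧ ∀ r, TateHolds Z.S A r) ∧
      ∀ X, IsProduct H.T W X → ∀ A : AbVar p Ω, StrongTate Z X A ∧ GeneralisedTate₂ Z X A) ↔
    ((∀ A : AbVar p Ω, TateHolds Z.S A 1) ∧ TateInDegreesOne Z.S ∧
      ∀ X ∈ W, ∀ i ≤ H.T.dim X, TateInDegrees Z X i (i - 2 * c X i) (i - c X i)) := by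
  constructor
  · rintro ⟨h1, h2⟩
    refine ⟨fun A => (h1 A).2 1, fun B b _ ht => (h1 B).2 2 b ht, fun X hX i _ => ?_⟩
    intro B x _ b _ ht
    exact (h2 X (IsProduct.of X hX) B).1 _ _ ht
  · rintro ⟨hdiv, h1, h2⟩
    obtain ⟨h3, h4⟩ := main_VT Z.toVT (W := W) c (fun X hX i hi => (hc X hX i hi).1)
      (fun X hX i hi y hy a hy0 hya => (hc X hX i hi).2 y hy a hy0 (by
        rw [TV.frob, pow_one]; exact hya)) hdiv h1
      (fun X hX i hi => (tateSplit_iff Z X i _ _).1 (h2 X hX i hi))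
    refine ⟨h3, fun X hX A => ?_⟩
    obtain ⟨h5, h6⟩ := h4 X (isProduct_of hX) A
    exact ⟨fun r t ht => h5 r t ((isGenTate_iff H X A r t).1 ht), fun j r t ht =>
      isImage₂_of (h6 j r t ((isEffective₂_iff H X A j r t).1 ht))⟩

end

end Pool.Agent.V8H94.TU
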